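import Pool.Agent.Helper39.T5.ZM

set_option autoImplicit false

open Finset MeasureTheory Filter Topology

namespace Pool.Agent.Helper39.T5

open Pool.Agent.Helper15.T4 Pool.Agent.Helper46.T5 Pool.Agent.Helper15.T5

/-- The real vertex matrix. -/
noncomputable def Rr {J : Type} [Fintype J] [DecidableEq J] (x : (J → Fin 3) → ℝ) :
    Matrix (J → Fin 3) (J → Fin 3) ℝ :=
  fun a b => ∑ c, (∏ j, ((eps (a j) (b j) (c j) : ℤ) : ℝ)) * x c

theorem R_eq (hMJ : ST_MJ) {J : Type} [Fintype J] [DecidableEq J] (x : (J → Fin 3) → ℝ) :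
    (mJ J).R x = (Rr x).map Complex.ofRealHom := by
  ext a b
  rw [(hMJ J).2.2.2 x a b]
  rfl

/-- The product of the traces. -/
noncomputable def PhR {J I : Type} [Fintype J] [DecidableEq J] [Fintype I] (κ : I → ℕ)
    (x : (J → Fin 3) → ℝ) : ℝ := ∏ i, ((Rr x) ^ (κ i + 1)).trace

theorem Rr_smul {J : Type} [Fintype J] [DecidableEq J] (s : ℝ) (x : (J → Fin 3) → ℝ) :
    Rr (s • x) = s • Rr x := by
  ext a b
  simp only [Rr, Matrix.smul_apply, smul_eq_mul, Pi.smul_apply, Finset.mul_sum]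
  refine Finset.sum_congr rfl (fun c _ => ?_)
  ring

theorem Rr_cont {J : Type} [Fintype J] [DecidableEq J] :
    Continuous (fun x : (J → Fin 3) → ℝ => Rr x) := by
  refine continuous_matrix (fun a b => ?_)
  simp only [Rr]
  refine continuous_finsetSum _ (fun c _ => ?_)
  exact continuous_const.mul (continuous_apply c)

theorem PhR_cont {J I : Type} [Fintype J] [DecidableEq J] [Fintype I] (κ : I → ℕ) :
    Continuous (PhR κ : ((J → Fin 3) → ℝ) → ℝ) := by
  unfold PhR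
  refine continuous_finsetProd _ (fun i _ => ?_)
  exact Continuous.matrix_trace (Rr_cont.pow (κ i + 1))

theorem PhR_hom {J I : Type} [Fintype J] [DecidableEq J] [Fintype I] (κ : I → ℕ) (s : ℝ)
    (x : (J → Fin 3) → ℝ) : PhR κ (s • x) = s ^ (∑ i, (κ i + 1)) * PhR κ x := by
  unfold PhR
  rw [Rr_smul]
  simp only [smul_pow, Matrix.trace_smul, smul_eq_mul]
  rw [Finset.prod_mul_distrib, Finset.prod_pow_eq_pow_sum]

theorem trace_R (hMJ : ST_MJ) {J : Type} [Fintype J] [DecidableEq J] (x : (J → Fin 3) → ℝ)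
    (k : ℕ) : (((mJ J).R x) ^ k).trace = ((((Rr x) ^ k).trace : ℝ) : ℂ) := by
  rw [R_eq hMJ, ← Matrix.map_pow, ← AddMonoidHom.map_trace]
  rfl

theorem PhR_cast (hMJ : ST_MJ) {J I : Type} [Fintype J] [DecidableEq J] [Fintype I] (κ : I → ℕ)
    (x : (J → Fin 3) → ℝ) :
    ∏ i, (((mJ J).R x * (mJ J).AM) ^ (κ i + 1)).trace = ((PhR κ x : ℝ) : ℂ) := by
  unfold PhR
  rw [Complex.ofReal_prod]
  refine Finset.prod_congr rfl fun i _ => ?_
  rw [(hMJ J).2.1, mul_one, trace_R hMJ]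

theorem mass_eq {n : ℕ} (W : Finset (Sym2 (HE n)) → ℝ) (F : Finset (Sym2 (HE n)))
    [DecidableEq (Sym2 (HE n))] :
    mass W F = ∑ M ∈ (PM (univ : Finset (HE n))).filter (fun M => F ⊆ M), W M := by
  unfold mass
  refine Finset.sum_congr ?_ (fun _ _ => rfl)
  ext M
  simp only [Finset.mem_filter]

theorem st_TLC (hSUMX : ST_SUMX) (hPSIC : ST_PSIC) (hSTRU : ST_STRU) (hXZ : ST_XZ)
    (hMJ : ST_MJ) (hZM : ST_ZM) (hPQ : ST_PQ) (hSOFT : ST_SOFT) : ST_TLC := by
  classical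
  intro K I _ _ κ
  have hcard : Fintype.card (Fin K × Fin 2) = 2 * K := by
    rw [Fintype.card_prod, Fintype.card_fin, Fintype.card_fin, mul_comm]
  set f : ℕ := ∑ i, (κ i + 1) with hf
  let P : ((Fin K × Fin 2 → Fin 3) → ℝ) → ℝ := fun x => TJ (Fin K × Fin 2) x x x
  let A : ℕ → ℝ := fun N => ∫ x : (Fin K × Fin 2 → Fin 3) → ℝ,
    P x ^ (2 * N - f) * PhR κ x * Real.exp (-(nsq x) / 2)
  let B : ℕ → ℝ := fun N => ∫ x : (Fin K × Fin 2 → Fin 3) → ℝ,
    P x ^ (2 * N) * Real.exp (-(nsq x) / 2)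
  obtain ⟨hmax, htr⟩ := hPQ K
  refine ⟨fun N => A N / B N, ?_, ?_⟩
  · have h1 := hSOFT _ P (qq ^ K) hmax f f (PhR κ) (∏ i, tau5 (κ i) ^ K) (by omega) (PhR_cont κ)
      (fun s x => by
        rw [PhR_hom]
        have : 3 * f - 2 * f = f := by omega
        rw [this])
      (fun x hx hPx => by
        have h2 : ∀ i, ((Rr x) ^ (κ i + 1)).trace = P x ^ (κ i + 1) * tau5 (κ i) ^ K := by
          intro i
          have h3 := htr x hx hPx (κ i)
          rw [trace_R hMJ] at h3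
          exact_mod_cast h3
        unfold PhR
        rw [Finset.prod_congr rfl fun i _ => h2 i, Finset.prod_mul_distrib,
          Finset.prod_pow_eq_pow_sum, mul_comm])
    have h4 := h1.div_const (3 ^ f)
    have h5 : (∏ i, tau5 (κ i) ^ K) / 3 ^ f = ∏ i, tau5 (κ i) ^ K / 3 ^ (κ i + 1) := by
      rw [Finset.prod_div_distrib, Finset.prod_pow_eq_pow_sum]
    rw [h5] at h4
    refine h4.congr (fun N => ?_)
    have h6 : (6 * (N : ℝ)) ^ f = 3 ^ f * (2 * (N : ℝ)) ^ f := by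
      rw [← mul_pow]
      congr 1
      ring
    have h3' : (3 : ℝ) ^ f ≠ 0 := pow_ne_zero _ (by norm_num)
    show A N * (6 * (N : ℝ)) ^ f / B N / 3 ^ f = A N / B N * (2 * (N : ℝ)) ^ f
    rw [h6]
    field_simp
  · refine Filter.Eventually.of_forall (fun N cc hcc => ?_)
    obtain ⟨hm, _, _, _, _⟩ := hSTRU (2 * N) I κ cc hcc
    have hsymm : (mJ (Fin K × Fin 2)).Symm := (hMJ _).1 (by rw [hcard]; exact even_two_mul K)
    have hnum : (∑ M ∈ (PM (univ : Finset (HE (2 * N)))).filter (fun M => EU cc ⊆ M),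
        ((Zc M : ℤ) : ℝ) ^ (2 * K)) =
        (2 * Real.pi) ^ (-(Fintype.card (Fin K × Fin 2 → Fin 3) : ℝ) / 2) * A N := by
      have h3 := hSUMX _ _ (mJ (Fin K × Fin 2)) (2 * N) (EU cc) hm
      have h5 : (mJ (Fin K × Fin 2)).Psi (EU cc) =
          fun x => ((P x ^ (2 * N - f) * PhR κ x : ℝ) : ℂ) := by
        funext x
        rw [hPSIC _ _ (mJ (Fin K × Fin 2)) hsymm (2 * N) I κ cc x hcc, PhR_cast hMJ, P_mJ hMJ]
        push_cast
        rfl
      rw [h5, GI_ofReal] at h3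
      have h6 : (∑ M ∈ (PM (univ : Finset (HE (2 * N)))).filter (fun M => EU cc ⊆ M),
          (mJ (Fin K × Fin 2)).X M) =
          ((∑ M ∈ (PM (univ : Finset (HE (2 * N)))).filter (fun M => EU cc ⊆ M),
            ((Zc M : ℤ) : ℝ) ^ (2 * K) : ℝ) : ℂ) := by
        rw [Complex.ofReal_sum]
        refine Finset.sum_congr rfl fun M _ => ?_
        rw [hXZ, hcard]
        push_cast
        rfl
      rw [h6] at h3
      exact_mod_cast h3
    have hden := hZM K (2 * N)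
    have hpi : (2 * Real.pi) ^ (-(Fintype.card (Fin K × Fin 2 → Fin 3) : ℝ) / 2) ≠ 0 :=
      (Real.rpow_pos_of_pos (by positivity) _).ne'
    rw [mass_eq]
    unfold WK
    rw [← Finset.sum_div, hnum, hden]
    exact mul_div_mul_left _ _ hpi

end Pool.Agent.Helper39.T5
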