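import Pool.Agent.Helper15.T5.Stmts

set_option autoImplicit false

open Finset MeasureTheory Filter Topology

namespace Pool.Agent.Helper39.T5

open Pool.Agent.Helper15.T4 Pool.Agent.Helper46.T5 Pool.Agent.Helper15.T5

theorem isMat_empty {H : Type} [Fintype H] : IsMat (∅ : Finset (Sym2 H)) := by
  refine ⟨fun e he => absurd he (Finset.notMem_empty e),
    fun e he => absurd he (Finset.notMem_empty e), fun h hh => ?_⟩
  exfalso
  simp only [cov, mem_filter, mem_univ, true_and] at hh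
  obtain ⟨e, he, -⟩ := hh
  exact absurd he (Finset.notMem_empty e)

theorem P_mJ (hMJ : ST_MJ) (J : Type) [Fintype J] [DecidableEq J] (x : (J → Fin 3) → ℝ) :
    (mJ J).P x = ((TJ J x x x : ℝ) : ℂ) := (hMJ J).2.2.1 x x x

/-- a Gaussian mean of a real function -/
theorem GI_ofReal {ι : Type} [Fintype ι] (f : (ι → ℝ) → ℝ) :
    GI (fun x => ((f x : ℝ) : ℂ)) = (((2 * Real.pi) ^ (-(Fintype.card ι : ℝ) / 2) *
      ∫ x : ι → ℝ, f x * Real.exp (-(nsq x) / 2) : ℝ) : ℂ) := by
  unfold GI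
  rw [Complex.ofReal_mul, ← integral_complex_ofReal]
  congr 1
  refine integral_congr_ae (Filter.Eventually.of_forall fun x => ?_)
  push_cast
  rfl

theorem st_ZM (hXZ : ST_XZ) (hMJ : ST_MJ) (hS : ST_SUMX) (hP : ST_PSI0) : ST_ZM := by
  classical
  intro K n
  have h1 := hS _ _ (mJ (Fin K × Fin 2)) n ∅ isMat_empty
  have hcard : Fintype.card (Fin K × Fin 2) = 2 * K := by
    rw [Fintype.card_prod, Fintype.card_fin, Fintype.card_fin, mul_comm]
  have h2 : ∑ M ∈ (PM (univ : Finset (HE n))).filter (fun M => ∅ ⊆ M),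
      (mJ (Fin K × Fin 2)).X M =
      ((∑ M ∈ PM (univ : Finset (HE n)), ((Zc M : ℤ) : ℝ) ^ (2 * K) : ℝ) : ℂ) := by
    rw [Finset.filter_true_of_mem (fun M _ => Finset.empty_subset M), Complex.ofReal_sum]
    refine Finset.sum_congr rfl fun M _ => ?_
    rw [hXZ, hcard]
    push_cast
    rfl
  have h3 : (mJ (Fin K × Fin 2)).Psi (∅ : Finset (Sym2 (HE n))) =
      fun x => (((TJ (Fin K × Fin 2) x x x) ^ n : ℝ) : ℂ) := by
    funext x
    rw [hP, P_mJ hMJ]
    push_cast
    rfl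
  rw [h2, h3, GI_ofReal] at h1
  exact_mod_cast h1

end Pool.Agent.Helper39.T5
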